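import Mathlib
import Pool.Agent.Q190.FBFinal

/-!
# MP_56fddc_gt: a hexagon whose body of flotation and body of buoyancy are homothetic

For the affinely regular hexagon `K = {|x| ≤ 1, |y| ≤ 1, |x - y| ≤ 1}` (of area `3`) and
`δ = 1 / 2` the body of buoyancy is the dilate with centre `0` and factor `4 / 3` of the body of
flotation. So the question has a negative answer (already for `n = 2`).
-/

namespace Pool.Agent.Results.MP_56fddc_gt.HexagonHomotheticBodies

open MeasureTheory Set Q190 Q190.FB

theorem result :
    (IsConvexBody hexagon ∧ ¬ IsEllipsoid hexagon ∧ volume.real hexagon = 3 ∧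
      (fun x => (4 / 3 : ℝ) • x) '' flotationBody hexagon (1 / 2) =
        buoyancyBody hexagon (1 / 2)) ∧
    ¬ (∀ (n : ℕ), 2 ≤ n → ∀ (K : Set (E n)) (δ : ℝ), IsConvexBody K → 0 < δ →
        δ < volume.real K → Homothetic (flotationBody K δ) (buoyancyBody K δ) →
        IsEllipsoid K) := by
  refine ⟨⟨hex_body, not_ellipsoid, vol_hex, buoyancy_eq⟩, fun h => ?_⟩
  exact not_ellipsoid (h 2 le_rfl hexagon (1 / 2) hex_body (by norm_num)
    (by rw [vol_hex]; norm_num) homothetic)

end Pool.Agent.Results.MP_56fddc_gt.HexagonHomotheticBodies
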